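import Mathlib

set_option autoImplicit false

namespace Pool.Agent.Results.MP_88b6d1_co.Exact

open Finset Matrix

/-- `A` is the matrix of a transformation `f` of `[n]`. -/
def IsTr {n : ℕ} (A : Matrix (Fin n) (Fin n) Bool) : Prop :=
  ∃ f : Fin n → Fin n, ∀ i j, A i j = true ↔ f i = j

/-- `k` matrices, each a transformation or a transposed transformation, have Boolean sum `≥ L_n`. -/
def Covers (n k : ℕ) : Prop :=
  ∃ A : Fin k → Matrix (Fin n) (Fin n) Bool, (∀ t, IsTr (A t) ∨ IsTr (A t)ᵀ) ∧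
    ∀ i j, i ≤ j → ∃ t, A t i j = true

variable {n : ℕ}

lemma card_gt (U : Finset (Fin n)) :
    2 * (#{x ∈ U ×ˢ U | x.2 < x.1} : ℤ) = #U * (#U - 1) := by
  have h1 : #{x ∈ U ×ˢ U | x.2 < x.1} = #{x ∈ U ×ˢ U | x.1 < x.2} :=
    card_equiv (Equiv.prodComm _ _) (by simp; tauto)
  have h2 : ((#U).choose 2 : ℚ) = #U * (#U - 1) / 2 := Nat.cast_choose_two ℚ _
  rw [h1, card_product_filter_lt]
  have h3 : (2 * ((#U).choose 2 : ℚ)) = #U * (#U - 1) := by rw [h2]; ring
  exact_mod_cast h3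

lemma split (R C : Finset (Fin n)) :
    (#{x ∈ R ×ˢ C | x.1 ≤ x.2} : ℤ) + #{x ∈ R ×ˢ C | x.2 < x.1} = #R * #C := by
  have := card_filter_add_card_filter_not (s := R ×ˢ C) (fun x => x.1 ≤ x.2)
  simp only [not_le, card_product] at this
  exact_mod_cast this

lemma consec (x : ℤ) : 0 ≤ x * (x - 1) := by
  rcases le_or_gt x 0 with h | h <;> nlinarith

lemma arith (n p q r c u e : ℤ) (h : p * (p + 1) + q * (q + 1) ≤ n * (n + 1))
    (hu : 0 ≤ u) (hs : r + c - n ≤ u) (hr : 0 ≤ r) (hc : 0 ≤ c) (hq : q ≤ n)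
    (he : 2 * e ≤ 2 * r * c - u * (u - 1)) : e ≤ (n - p) * r + (n - q) * c := by
  have key : ∀ r : ℤ, 2 * r * c - (r + c - n) * (r + c - n - 1) ≤
      2 * ((n - p) * r + (n - q) * c) := fun r => by
    nlinarith [consec (r - p), consec (c - q)]
  rcases le_or_gt 0 (r + c - n) with h0 | h0
  · have : (r + c - n) * (r + c - n - 1) ≤ u * (u - 1) := by
      rcases hs.eq_or_lt with h1 | h1
      · rw [h1]
      · nlinarith
    linarith [key r]
  · have h1 := key (n - c)
    have h2 := consec u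
    rcases le_or_gt c (n - p) with h3 | h3
    · nlinarith [mul_nonneg hr (sub_nonneg.2 h3), mul_nonneg hc (sub_nonneg.2 hq)]
    · nlinarith [mul_nonneg (sub_nonneg.2 h3.le) (by linarith : 0 ≤ n - c - r)]

lemma upper (a b : ℕ) (hb : b ≤ n)
    (h : ((n : ℤ) - a) * (n - a + 1) + (n - b) * (n - b + 1) ≤ n * (n + 1)) : Covers n (a + b) := by
  classical
  let t : {x : Fin n × Fin n // x.1 ≤ x.2} → Finset ((Fin n × Fin a) ⊕ (Fin n × Fin b)) :=
    fun x => ({x.1.1} ×ˢ univ).disjSum ({x.1.2} ×ˢ univ)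
  obtain ⟨F, hF, hFt⟩ := (all_card_le_biUnion_card_iff_exists_injective t).1 (fun S => by
    set R := S.image (fun x => x.1.1) with hR
    set C := S.image (fun x => x.1.2) with hC
    have h1 : S.biUnion t = (R ×ˢ univ).disjSum (C ×ˢ univ) := by
      ext (⟨i, x⟩ | ⟨j, y⟩) <;> simp [t, hR, hC, eq_comm]
    have h2 : #S ≤ #{x ∈ R ×ˢ C | x.1 ≤ x.2} :=
      card_le_card_of_injOn Subtype.val (fun x hx => by
        simp only [coe_filter, mem_product, Set.mem_ofPred_eq]
        exact ⟨⟨mem_image_of_mem _ hx, mem_image_of_mem _ hx⟩, x.2⟩) Subtype.val_injective.injOn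
    have h3 : #{x ∈ (R ∩ C) ×ˢ (R ∩ C) | x.2 < x.1} ≤ #{x ∈ R ×ˢ C | x.2 < x.1} :=
      card_le_card (filter_subset_filter _ (product_subset_product inter_subset_left
        inter_subset_right))
    have h4 := card_union_add_card_inter R C
    have h5 : #(R ∪ C) ≤ n := by simpa using card_le_univ (R ∪ C)
    have h6 := arith n (n - a) (n - b) #R #C #(R ∩ C) #S h (by positivity) (by omega)
      (by positivity) (by positivity) (by omega)
      (by linarith [card_gt (R ∩ C), split R C, (by exact_mod_cast h2 :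
        (#S : ℤ) ≤ #{x ∈ R ×ˢ C | x.1 ≤ x.2}), (by exact_mod_cast h3 :
        (#{x ∈ (R ∩ C) ×ˢ (R ∩ C) | x.2 < x.1} : ℤ) ≤ #{x ∈ R ×ˢ C | x.2 < x.1})])
    rw [h1]
    simp only [card_disjSum, card_product, card_univ, Fintype.card_fin]
    have h7 : (#S : ℤ) ≤ #R * a + #C * b := by linarith
    exact_mod_cast h7)
  let f : Fin a → Fin n → Fin n := fun x i =>
    if h : ∃ c, F c = .inl (i, x) then h.choose.1.2 else i
  let g : Fin b → Fin n → Fin n := fun y j =>
    if h : ∃ c, F c = .inr (j, y) then h.choose.1.1 else j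
  refine ⟨Fin.addCases (fun x => of fun i j => decide (f x i = j))
    (fun y => of fun i j => decide (g y j = i)), fun s => ?_, fun i j hij => ?_⟩
  · refine Fin.addCases (fun x => Or.inl ⟨f x, by simp⟩) (fun y => Or.inr ⟨g y, by simp⟩) s
  · have h1 := hFt ⟨(i, j), hij⟩
    rcases h2 : F ⟨(i, j), hij⟩ with ⟨i', x⟩ | ⟨j', y⟩
    · obtain rfl : i = i' := by simpa [h2, t] using h1
      have h3 : ∃ c, F c = .inl (i, x) := ⟨_, h2⟩
      refine ⟨Fin.castAdd b x, ?_⟩
      simp only [Fin.addCases_left, of_apply, f, dif_pos h3, hF (h3.choose_spec.trans h2.symm),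
        decide_true]
    · obtain rfl : j = j' := by simpa [h2, t] using h1
      have h3 : ∃ c, F c = .inr (j, y) := ⟨_, h2⟩
      refine ⟨Fin.natAdd a y, ?_⟩
      simp only [Fin.addCases_right, of_apply, g, dif_pos h3, hF (h3.choose_spec.trans h2.symm),
        decide_true]

lemma lower {k : ℕ} (h : Covers n k) : ∃ a b : ℕ, a + b = k ∧ (a ≤ n → b ≤ n →
    ((n : ℤ) - a) * (n - a + 1) + (n - b) * (n - b + 1) ≤ n * (n + 1)) := by
  classical
  obtain ⟨A, hA, hc⟩ := h
  have hA' : ∀ t, ∃ f : Fin n → Fin n, (IsTr (A t) → ∀ i j, A t i j = true → f i = j) ∧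
      (¬ IsTr (A t) → ∀ i j, A t i j = true → f j = i) := fun t => by
    by_cases ht : IsTr (A t)
    · obtain ⟨f, hf⟩ := id ht
      exact ⟨f, fun _ i j => (hf i j).1, fun h => absurd ht h⟩
    · obtain ⟨f, hf⟩ := (hA t).resolve_left ht
      exact ⟨f, fun h => absurd h ht, fun _ i j => (hf j i).1⟩
  choose f hf using hA'
  set a := #{t | IsTr (A t)} with ha
  set b := #{t | ¬ IsTr (A t)} with hb
  refine ⟨a, b, by simpa using card_filter_add_card_filter_not (s := univ) (fun t => IsTr (A t)),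
    fun han hbn => ?_⟩
  let I : ℕ → Finset (Fin n) := fun p => {i | i.val < p}
  have hI : ∀ p ≤ n, #(I p) = p := fun p hp => by simp [I, Fin.card_filter_val_lt, hp]
  set R := I (n - a) with hR
  set C := (I b)ᶜ with hC
  have cR : (#R : ℤ) = n - a := by rw [hI _ (by omega)]; omega
  have cC : (#C : ℤ) = n - b := by rw [card_compl, hI _ hbn, Fintype.card_fin]; omega
  have h1 : #{x ∈ R ×ˢ C | x.1 ≤ x.2} ≤ a * #R + b * #C := by
    refine (card_le_card (t :=
      (univ.filter (fun t => IsTr (A t)) ×ˢ R).image (fun y => (y.2, f y.1 y.2)) ∪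
      (univ.filter (fun t => ¬ IsTr (A t)) ×ˢ C).image (fun y => (f y.1 y.2, y.2))) ?_).trans
      ((card_union_le _ _).trans (add_le_add (card_image_le.trans (by simp [ha]))
        (card_image_le.trans (by simp [hb]))))
    rintro ⟨i, j⟩ hx
    simp only [mem_filter, mem_product] at hx
    obtain ⟨t, ht⟩ := hc i j hx.2
    by_cases h : IsTr (A t)
    · exact mem_union_left _ (mem_image.2 ⟨(t, i), by simp [h, hx.1.1], by
        simp [(hf t).1 h i j ht]⟩)
    · exact mem_union_right _ (mem_image.2 ⟨(t, j), by simp [h, hx.1.2], by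
        simp [(hf t).2 h i j ht]⟩)
  have h2 : #{x ∈ R ×ˢ C | x.2 < x.1} ≤ #{x ∈ (R ∩ C) ×ˢ (R ∩ C) | x.2 < x.1} := by
    refine card_le_card ?_
    rintro ⟨i, j⟩
    simp only [hR, hC, I, mem_filter, mem_product, mem_inter, mem_compl, mem_univ, true_and,
      Fin.lt_def]
    omega
  have h3 : (#(R ∩ C) : ℤ) * (#(R ∩ C) - 1) ≤ (n - a - b) * (n - a - b - 1) := by
    rcases le_or_gt b (n - a) with h | h
    · have : R ∩ C = R \ I b := by ext; simp [hC]
      rw [this, card_sdiff_of_subset (fun i => by simp only [hR, I]; simp; omega), hI _ hbn,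
        hI _ (by omega)]
      push_cast [h, han]
      rfl
    · have : R ∩ C = ∅ := by
        ext i
        simp only [hR, hC, I]
        simp
        omega
      simpa [this] using consec (n - a - b)
  have h4 : (#{x ∈ R ×ˢ C | x.1 ≤ x.2} : ℤ) ≤ a * #R + b * #C := by exact_mod_cast h1
  have h5 : (#{x ∈ R ×ˢ C | x.2 < x.1} : ℤ) ≤ #{x ∈ (R ∩ C) ×ˢ (R ∩ C) | x.2 < x.1} := by
    exact_mod_cast h2
  have h6 := split R C
  have h7 := card_gt (R ∩ C)
  rw [cR, cC] at h4 h6
  nlinarith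

theorem result (n : ℕ) :
    IsLeast {k | Covers n k} (2 * n + 1 - Nat.sqrt (2 * n ^ 2 + 2 * n + 1)) := by
  set s := Nat.sqrt (2 * n ^ 2 + 2 * n + 1) with hs
  have h1 : s * s ≤ 2 * n ^ 2 + 2 * n + 1 := Nat.sqrt_le _
  have h2 : n + 1 ≤ s := Nat.le_sqrt.2 (by nlinarith)
  have h3 : s ≤ 2 * n + 1 := by nlinarith
  constructor
  · obtain ⟨p, hp⟩ : ∃ p, s = 2 * p + 1 ∨ s = 2 * p + 2 := ⟨(s - 1) / 2, by omega⟩
    rcases hp with hp | hp
    · have hpn : p ≤ n := by omega
      have := upper (n := n) (n - p) (n - p) (by omega) (by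
        push_cast [hpn]
        have : ((2 * p + 1) * (2 * p + 1) : ℤ) ≤ 2 * n ^ 2 + 2 * n + 1 := by
          rw [hp] at h1; exact_mod_cast h1
        nlinarith)
      rwa [show n - p + (n - p) = 2 * n + 1 - s by omega] at this
    · have hpn : p + 1 ≤ n := by omega
      have hpn' : p ≤ n := by omega
      have := upper (n := n) (n - p) (n - (p + 1)) (by omega) (by
        push_cast [hpn, hpn']
        have h4 : ((2 * p + 2) * (2 * p + 2) : ℤ) ≤ 2 * n ^ 2 + 2 * n + 1 := by
          rw [hp] at h1; exact_mod_cast h1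
        have h5 : 2 * (2 * ((p + 1) * (p + 1)) : ℤ) ≤ 2 * (n * (n + 1)) + 1 := by nlinarith
        have h6 : (2 * ((p + 1) * (p + 1)) : ℤ) ≤ n * (n + 1) := by omega
        nlinarith)
      rwa [show n - p + (n - (p + 1)) = 2 * n + 1 - s by omega] at this
  · intro k hk
    obtain ⟨a, b, rfl, h⟩ := lower hk
    by_contra hcon
    have ha : a ≤ n := by omega
    have hb : b ≤ n := by omega
    have h4 := h ha hb
    obtain ⟨p, rfl⟩ := Nat.exists_eq_add_of_le ha
    obtain ⟨q, hq⟩ := Nat.exists_eq_add_of_le hb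
    have h5 : p + q + 1 ≤ s := Nat.le_sqrt.2 (by
      have hq' : ((a : ℤ) + p - b) = q := by omega
      push_cast at h4
      rw [hq', add_sub_cancel_left] at h4
      have : ((p : ℤ) + q + 1) * (p + q + 1) ≤ 2 * (a + p) ^ 2 + 2 * (a + p) + 1 := by
        nlinarith [sq_nonneg ((p : ℤ) - q)]
      exact_mod_cast this)
    omega

end Pool.Agent.Results.MP_88b6d1_co.Exact
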